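import Pool.Agent.Lib.MP_0cffd2_co.Main

namespace Pool.Agent.Results.MP_0cffd2_co.Bound4078

/-- `A(20,5) ≤ 4078`: a binary code of length 20 and minimum distance at least 5 has at most
4078 words; in particular there is no `(20,4096,5)` code. -/
theorem result (C : Finset (Fin 20 → Bool))
    (hd : ∀ x ∈ C, ∀ y ∈ C, x ≠ y → 5 ≤ hammingDist x y) : C.card ≤ 4078 :=
  Pool.Agent.Lib.MP_0cffd2_co.card_le_4078 C hd

end Pool.Agent.Results.MP_0cffd2_co.Bound4078
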